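import Pool.Agent.Helper49.Petrie.Base

/-!
# Test vectors
-/

set_option autoImplicit false
set_option linter.unusedSectionVars false

namespace Pool.Agent.Helper57.Petrie

open Finset Pool.Agent.Helper49.Petrie

theorem exists_prim {k : ℕ} (x : Fin k → ℤ) (hx : x ≠ 0) :
    ∃ (u : Fin k → ℤ) (z : ℤ), Prim u ∧ x = z • u := by
  obtain ⟨g, hg⟩ := (IsPrincipalIdealRing.principal (Ideal.span (Set.range x))).principal
  have hg1 : g ∈ Ideal.span (Set.range x) := by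
    rw [hg]
    exact Submodule.mem_span_singleton_self g
  have hg2 : ∀ i, g ∣ x i := by
    intro i
    have h1 : x i ∈ Ideal.span (Set.range x) := Ideal.subset_span ⟨i, rfl⟩
    rw [hg] at h1
    exact Ideal.mem_span_singleton.1 h1
  choose u hu using hg2
  have hg0 : g ≠ 0 := by
    rintro rfl
    apply hx
    funext i
    rw [hu i, zero_mul]
    rfl
  obtain ⟨v, hv⟩ := Ideal.mem_span_range_iff_exists_fun.1 hg1
  refine ⟨u, g, ⟨v, ?_⟩, ?_⟩
  · have h1 : g * (u ⬝ᵥ v) = g * 1 := by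
      rw [mul_one]
      conv_rhs => rw [← hv]
      unfold dotProduct
      rw [Finset.mul_sum]
      refine Finset.sum_congr rfl fun i _ => ?_
      rw [hu i]
      ring
    exact mul_left_cancel₀ hg0 h1
  · funext i
    rw [Pi.smul_apply, smul_eq_mul]
    exact hu i

theorem exists_common {k : ℕ} (U : Submodule ℤ (Fin k → ℤ)) (F : Finset (Fin k → ℤ))
    (h : ∀ x ∈ F, ∃ v ∈ U, x ⬝ᵥ v ≠ 0) : ∃ v ∈ U, ∀ x ∈ F, x ⬝ᵥ v ≠ 0 := by
  classical
  induction F using Finset.induction_on with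
  | empty => exact ⟨0, U.zero_mem, fun x hx => absurd hx (Finset.notMem_empty x)⟩
  | insert x F _ ih =>
    obtain ⟨v, hv, hvF⟩ := ih fun y hy => h y (Finset.mem_insert_of_mem hy)
    obtain ⟨v', hv', hx⟩ := h x (Finset.mem_insert_self x F)
    set N : ℤ := 1 + ∑ y ∈ insert x F, |y ⬝ᵥ v'| with hN
    have hNy : ∀ y ∈ insert x F, |y ⬝ᵥ v'| < N := by
      intro y hy
      have h1 := Finset.single_le_sum (f := fun y => |y ⬝ᵥ v'|) (fun z _ => abs_nonneg _) hy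
      have h2 : |y ⬝ᵥ v'| ≤ ∑ y ∈ insert x F, |y ⬝ᵥ v'| := h1
      linarith
    have key : ∀ y ∈ insert x F, y ⬝ᵥ v ≠ 0 → y ⬝ᵥ (N • v + v') ≠ 0 := by
      intro y hy h0 h1
      rw [dotProduct_add, dotProduct_smul, smul_eq_mul] at h1
      have h2 : y ⬝ᵥ v' = -(N * (y ⬝ᵥ v)) := by linarith
      have h3 := hNy y hy
      rw [h2, abs_neg, abs_mul] at h3
      have h4 : 1 ≤ |y ⬝ᵥ v| := Int.one_le_abs h0
      have h5 : 0 ≤ |N| := abs_nonneg N
      have h6 : N ≤ |N| := le_abs_self N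
      nlinarith
    refine ⟨N • v + v', U.add_mem (U.smul_mem N hv) hv', ?_⟩
    intro y hy
    by_cases h0 : y ⬝ᵥ v = 0
    · rcases Finset.mem_insert.1 hy with rfl | hyF
      · rw [dotProduct_add, dotProduct_smul, h0, smul_zero, zero_add]
        exact hx
      · exact absurd h0 (hvF y hyF)
    · exact key y hy h0

theorem exists_generic {k : ℕ} (F : Finset (Fin k → ℤ)) :
    ∃ v : Fin k → ℤ, ∀ x ∈ F, x ⬝ᵥ v = 0 → x = 0 := by
  classical
  obtain ⟨v, -, hv⟩ := exists_common (⊤ : Submodule ℤ (Fin k → ℤ)) (F.filter fun x => x ≠ 0)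
    (by
      intro x hx
      refine ⟨x, Submodule.mem_top, ?_⟩
      intro h
      exact (Finset.mem_filter.1 hx).2 (dotProduct_self_eq_zero.1 h))
  refine ⟨v, fun x hx h => ?_⟩
  by_contra h0
  exact hv x (Finset.mem_filter.2 ⟨hx, h0⟩) h

theorem exists_test {k : ℕ} (F : Finset (Fin k → ℤ)) (u : Fin k → ℤ) (hu : Prim u)
    (p : ℕ) (hp : p.Prime) (m : ℕ) (hm : 0 < m) :
    ∃ (v : Fin k → ℤ) (e : ℕ), 0 < e ∧
      ∀ x ∈ F, ((m * p ^ e : ℕ) : ℤ) ∣ x ⬝ᵥ v ↔ ∃ z : ℤ, x = z • ((m : ℤ) • u) := by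
  classical
  obtain ⟨v₁, hv₁⟩ := hu
  let U : Submodule ℤ (Fin k → ℤ) :=
    { carrier := {v | u ⬝ᵥ v = 0}
      zero_mem' := dotProduct_zero u
      add_mem' := fun {a b} ha hb => by
        change u ⬝ᵥ (a + b) = 0
        rw [dotProduct_add, show u ⬝ᵥ a = 0 from ha, show u ⬝ᵥ b = 0 from hb, add_zero]
      smul_mem' := fun c a ha => by
        change u ⬝ᵥ (c • a) = 0
        rw [dotProduct_smul, show u ⬝ᵥ a = 0 from ha, smul_zero] }
  obtain ⟨v₂, hv₂, hF⟩ := exists_common U (F.filter fun x => x ≠ (x ⬝ᵥ v₁) • u) (by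
    intro x hx
    have hx' := (Finset.mem_filter.1 hx).2
    by_contra hcon
    push Not at hcon
    apply hx'
    have h1 : ∀ s t, x t * u s = x s * u t := by
      intro s t
      have h2 : u ⬝ᵥ (u s • Pi.single t 1 - u t • Pi.single s 1) = 0 := by
        rw [dotProduct_sub, dotProduct_smul, dotProduct_smul, dotProduct_single_one,
          dotProduct_single_one, smul_eq_mul, smul_eq_mul]
        ring
      have h3 := hcon _ h2
      rw [dotProduct_sub, dotProduct_smul, dotProduct_smul, dotProduct_single_one,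
          dotProduct_single_one, smul_eq_mul, smul_eq_mul] at h3
      linarith
    funext t
    rw [Pi.smul_apply, smul_eq_mul]
    have h4 : x t = x t * (u ⬝ᵥ v₁) := by rw [hv₁, mul_one]
    rw [h4]
    unfold dotProduct
    rw [Finset.mul_sum, Finset.sum_mul]
    refine Finset.sum_congr rfl fun s _ => ?_
    rw [← mul_assoc, h1 s t]
    ring)
  have hv₂' : u ⬝ᵥ v₂ = 0 := hv₂
  obtain ⟨e, he⟩ : ∃ e : ℕ, (m * ∑ x ∈ F, (x ⬝ᵥ v₂).natAbs) < p ^ e :=
    ⟨_, Nat.lt_pow_self hp.one_lt⟩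
  have he' : (m * ∑ x ∈ F, (x ⬝ᵥ v₂).natAbs) < p ^ (e + 1) :=
    he.trans_le (Nat.pow_le_pow_right hp.pos (Nat.le_succ e))
  refine ⟨((p ^ (e + 1) : ℕ) : ℤ) • v₁ + (m : ℤ) • v₂, e + 1, Nat.succ_pos e, ?_⟩
  intro x hx
  have hxv : x ⬝ᵥ (((p ^ (e + 1) : ℕ) : ℤ) • v₁ + (m : ℤ) • v₂) =
      ((p ^ (e + 1) : ℕ) : ℤ) * (x ⬝ᵥ v₁) + m * (x ⬝ᵥ v₂) := by
    rw [dotProduct_add, dotProduct_smul, dotProduct_smul, smul_eq_mul, smul_eq_mul]
  rw [hxv]
  constructor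
  · intro h
    have h1 : ((p ^ (e + 1) : ℕ) : ℤ) ∣ m * (x ⬝ᵥ v₂) := by
      have h2 : ((p ^ (e + 1) : ℕ) : ℤ) ∣
          ((p ^ (e + 1) : ℕ) : ℤ) * (x ⬝ᵥ v₁) + m * (x ⬝ᵥ v₂) := by
        refine dvd_trans ?_ h
        rw [Nat.cast_mul]
        exact Dvd.intro_left _ rfl
      exact (dvd_add_right (Dvd.intro _ rfl)).1 h2
    have h2 : (m : ℤ) * (x ⬝ᵥ v₂) = 0 := by
      refine Int.eq_zero_of_abs_lt_dvd h1 ?_
      rw [abs_mul, Nat.abs_cast]
      have h3 : (x ⬝ᵥ v₂).natAbs ≤ ∑ x ∈ F, (x ⬝ᵥ v₂).natAbs :=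
        Finset.single_le_sum (f := fun x => (x ⬝ᵥ v₂).natAbs) (fun _ _ => Nat.zero_le _) hx
      have h4 : m * (x ⬝ᵥ v₂).natAbs < p ^ (e + 1) :=
        lt_of_le_of_lt (Nat.mul_le_mul_left m h3) he'
      have h5 : ((m * (x ⬝ᵥ v₂).natAbs : ℕ) : ℤ) < ((p ^ (e + 1) : ℕ) : ℤ) := by exact_mod_cast h4
      rw [Nat.cast_mul, Int.natCast_natAbs] at h5
      exact h5
    have hm' : (m : ℤ) ≠ 0 := by exact_mod_cast hm.ne'
    have h3 : x ⬝ᵥ v₂ = 0 := (mul_eq_zero.1 h2).resolve_left hm'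
    have h4 : x = (x ⬝ᵥ v₁) • u := by
      by_contra h5
      exact hF x (Finset.mem_filter.2 ⟨hx, h5⟩) h3
    rw [h2, add_zero, Nat.cast_mul, mul_comm (m : ℤ)] at h
    have hp' : ((p ^ (e + 1) : ℕ) : ℤ) ≠ 0 := by
      exact_mod_cast (pow_pos hp.pos (e + 1)).ne'
    obtain ⟨z, hz⟩ := (mul_dvd_mul_iff_left hp').1 h
    refine ⟨z, ?_⟩
    rw [h4]
    have h6 : ((x ⬝ᵥ v₁) • u) ⬝ᵥ v₁ = x ⬝ᵥ v₁ := by
      rw [smul_dotProduct, hv₁, smul_eq_mul, mul_one]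
    rw [hz, smul_smul, mul_comm]
  · rintro ⟨z, rfl⟩
    have h1 : (z • (m : ℤ) • u) ⬝ᵥ v₂ = 0 := by
      rw [smul_dotProduct, smul_dotProduct, hv₂', smul_zero, smul_zero]
    have h2 : (z • (m : ℤ) • u) ⬝ᵥ v₁ = z * m := by
      rw [smul_dotProduct, smul_dotProduct, hv₁, smul_eq_mul, smul_eq_mul, mul_one]
    rw [h1, h2, mul_zero, add_zero, Nat.cast_mul]
    exact ⟨z, by ring⟩

/-- The vectors of the data. -/
noncomputable def vecs {k n : ℕ} (X : TorusAction k n) : Finset (Fin k → ℤ) := by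
  classical exact (univ.image fun p : Fin (n + 1) × Fin n => X.w p.1 p.2) ∪
    univ.image fun p : Fin (n + 1) × Fin (n + 1) => X.a p.1 - X.a p.2

theorem w_mem {k n : ℕ} (X : TorusAction k n) (i : Fin (n + 1)) (j : Fin n) :
    X.w i j ∈ vecs X := by
  classical
  unfold vecs
  exact Finset.mem_union_left _ (Finset.mem_image.2 ⟨(i, j), Finset.mem_univ _, rfl⟩)

theorem a_mem {k n : ℕ} (X : TorusAction k n) (l i : Fin (n + 1)) :
    X.a l - X.a i ∈ vecs X := by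
  classical
  unfold vecs
  exact Finset.mem_union_right _ (Finset.mem_image.2 ⟨(l, i), Finset.mem_univ _, rfl⟩)

theorem dir_zero {k n : ℕ} (X : TorusAction k n) (i : Fin (n + 1)) :
    #{j | X.w i j = 0} = #{l | l ≠ i ∧ X.a l = X.a i} := by
  obtain ⟨v, hv⟩ := exists_generic (vecs X)
  have h := (X.circle v).smith i 0 (Or.inl rfl)
  unfold cntW cntA at h
  have h1 : (univ.filter fun j : Fin n => ((0 : ℕ) : ℤ) ∣ X.w i j ⬝ᵥ v) =
      univ.filter fun j => X.w i j = 0 := by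
    ext j
    simp only [Finset.mem_filter, Finset.mem_univ, true_and, Nat.cast_zero, zero_dvd_iff]
    exact ⟨fun h => hv _ (w_mem X i j) h, fun h => by rw [h, zero_dotProduct]⟩
  have h2 : (univ.filter fun l : Fin (n + 1) => l ≠ i ∧ ((0 : ℕ) : ℤ) ∣ X.a l ⬝ᵥ v - X.a i ⬝ᵥ v) =
      univ.filter fun l => l ≠ i ∧ X.a l = X.a i := by
    ext l
    simp only [Finset.mem_filter, Finset.mem_univ, true_and, Nat.cast_zero, zero_dvd_iff]
    refine and_congr_right fun _ => ?_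
    rw [← sub_dotProduct]
    exact ⟨fun h => sub_eq_zero.1 (hv _ (a_mem X l i) h), fun h => by
      rw [h, sub_self, zero_dotProduct]⟩
  rw [h1, h2] at h
  exact h

/-- The circle counts of a test vector. -/
theorem counts {k n : ℕ} (X : TorusAction k n) (u v : Fin k → ℤ) (M m : ℕ)
    (h : ∀ x ∈ vecs X, ((M : ℕ) : ℤ) ∣ x ⬝ᵥ v ↔ ∃ z : ℤ, x = z • ((m : ℤ) • u))
    (i : Fin (n + 1)) :
    cntW (fun j => X.w i j ⬝ᵥ v) M = dW X i ((m : ℤ) • u) ∧
      cntA (fun l => X.a l ⬝ᵥ v) i M = dA X i ((m : ℤ) • u) := by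
  classical
  constructor
  · unfold cntW dW
    congr 1
    ext j
    simp only [Finset.mem_filter, Finset.mem_univ, true_and]
    exact h _ (w_mem X i j)
  · unfold cntA dA
    congr 1
    ext l
    simp only [Finset.mem_filter, Finset.mem_univ, true_and]
    refine and_congr_right fun _ => ?_
    rw [← sub_dotProduct]
    exact h _ (a_mem X l i)

theorem dir_le {k n : ℕ} (X : TorusAction k n) (i : Fin (n + 1)) (u : Fin k → ℤ)
    (hu : Prim u) (m : ℕ) (hm : 0 < m) : dW X i ((m : ℤ) • u) ≤ dA X i ((m : ℤ) • u) := by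
  obtain ⟨v, e, -, hv⟩ := exists_test (vecs X) u hu 2 Nat.prime_two m hm
  obtain ⟨h1, h2⟩ := counts X u v (m * 2 ^ e) m hv i
  rw [← h1, ← h2]
  exact (X.circle v).index_le i (m * 2 ^ e)

theorem dir_eq {k n : ℕ} (X : TorusAction k n) (i : Fin (n + 1)) (u : Fin k → ℤ)
    (hu : Prim u) (m : ℕ) (hm : m = 1 ∨ IsPrimePow m) :
    dW X i ((m : ℤ) • u) = dA X i ((m : ℤ) • u) := by
  have hpr : ∃ p : ℕ, p.Prime ∧ 0 < m ∧ ∀ e : ℕ, 0 < e → IsPrimePow (m * p ^ e) := by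
    rcases hm with rfl | hm
    · refine ⟨2, Nat.prime_two, one_pos, fun e he => ?_⟩
      rw [one_mul]
      exact Nat.prime_two.isPrimePow.pow he.ne'
    · obtain ⟨p, a, hp, ha, rfl⟩ := hm
      have hp' : p.Prime := Nat.prime_iff.2 hp
      refine ⟨p, hp', pow_pos hp'.pos a, fun e _ => ?_⟩
      rw [← pow_add]
      exact hp'.isPrimePow.pow (by omega)
  obtain ⟨p, hp, hm0, hpe⟩ := hpr
  obtain ⟨v, e, he, hv⟩ := exists_test (vecs X) u hu p hp m hm0
  obtain ⟨h1, h2⟩ := counts X u v (m * p ^ e) m hv i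
  rw [← h1, ← h2]
  exact (X.circle v).smith i (m * p ^ e) (Or.inr (hpe e he))

theorem dir_prop {k n : ℕ} (X : TorusAction k n) (i l : Fin (n + 1)) (u : Fin k → ℤ)
    (hu : Prim u) (m : ℕ) (hm : 0 < m) (hl : ∃ z : ℤ, X.a l - X.a i = z • ((m : ℤ) • u))
    (he : dW X i ((m : ℤ) • u) = dA X i ((m : ℤ) • u)) :
    dW X l ((m : ℤ) • u) = dA X l ((m : ℤ) • u) := by
  obtain ⟨v, e, -, hv⟩ := exists_test (vecs X) u hu 2 Nat.prime_two m hm
  obtain ⟨h1, h2⟩ := counts X u v (m * 2 ^ e) m hv i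
  obtain ⟨h3, h4⟩ := counts X u v (m * 2 ^ e) m hv l
  rw [← h1, ← h2] at he
  rw [← h3, ← h4]
  refine (X.circle v).index_eq i l (m * 2 ^ e) ?_ he
  rw [← sub_dotProduct]
  exact (hv _ (a_mem X l i)).2 hl

end Pool.Agent.Helper57.Petrie
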