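import Mathlib

/-!
# The polynomial method for point configurations
-/

set_option autoImplicit false
set_option linter.unusedSectionVars false
set_option linter.unusedVariables false

namespace Pool.Agent.Helper57.Petrie

open Finset MvPolynomial

/-- The restriction of a polynomial to a line. -/
noncomputable def onLine {κ : ℕ} (p u : Fin κ → ℚ) (F : MvPolynomial (Fin κ) ℚ) :
    Polynomial ℚ :=
  MvPolynomial.aeval (fun i => Polynomial.C (p i) + Polynomial.C (u i) * Polynomial.X) F

theorem eval_onLine {κ : ℕ} (p u : Fin κ → ℚ) (F : MvPolynomial (Fin κ) ℚ) (t : ℚ) :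
    (onLine p u F).eval t = eval (p + t • u) F := by
  unfold onLine
  induction F using MvPolynomial.induction_on with
  | C a => simp
  | add F G hF hG => simp only [map_add, Polynomial.eval_add, hF, hG]
  | mul_X F i hF =>
    simp only [map_mul, Polynomial.eval_mul, hF, MvPolynomial.aeval_X, Polynomial.eval_add,
      Polynomial.eval_C, Polynomial.eval_X, MvPolynomial.eval_X, Pi.add_apply, Pi.smul_apply,
      smul_eq_mul]
    ring

theorem derivative_onLine {κ : ℕ} (p u : Fin κ → ℚ) (F : MvPolynomial (Fin κ) ℚ) :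
    (Polynomial.derivative (onLine p u F)).eval 0 = ∑ i, u i * eval p (pderiv i F) := by
  have h0 : ∀ F, (onLine p u F).eval 0 = eval p F := fun F => by
    rw [eval_onLine, zero_smul, add_zero]
  induction F using MvPolynomial.induction_on with
  | C a =>
    unfold onLine
    simp
  | add F G hF hG =>
    have h1 : onLine p u (F + G) = onLine p u F + onLine p u G := by
      unfold onLine
      rw [map_add]
    rw [h1, Polynomial.derivative_add, Polynomial.eval_add, hF, hG, ← Finset.sum_add_distrib]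
    refine Finset.sum_congr rfl fun i _ => ?_
    rw [map_add, map_add]
    ring
  | mul_X F j hF =>
    have h1 : onLine p u (F * X j) =
        onLine p u F * (Polynomial.C (p j) + Polynomial.C (u j) * Polynomial.X) := by
      unfold onLine
      rw [map_mul, MvPolynomial.aeval_X]
    rw [h1, Polynomial.derivative_mul, Polynomial.eval_add, Polynomial.eval_mul,
      Polynomial.eval_mul, hF, h0]
    have h2 : ∀ i, u i * eval p (pderiv i (F * X j)) =
        u i * eval p (pderiv i F) * p j + eval p F * (if i = j then u j else 0) := by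
      intro i
      rw [pderiv_mul, map_add, map_mul, map_mul, MvPolynomial.eval_X, pderiv_X]
      by_cases h : i = j
      · subst h
        rw [if_pos rfl, Pi.single_eq_same, map_one]
        ring
      · rw [if_neg h, Pi.single_eq_of_ne (Ne.symm h), map_zero]
        ring
    rw [Finset.sum_congr rfl fun i _ => h2 i, Finset.sum_add_distrib, ← Finset.sum_mul,
      ← Finset.mul_sum, Finset.sum_ite_eq' Finset.univ j fun _ => u j,
      if_pos (Finset.mem_univ j)]
    simp

theorem poly_zero {κ : ℕ} (d : ℕ) (P : Finset (Fin κ → ℚ)) (hne : P.Nonempty)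
    (h : ∀ p ∈ P, Submodule.span ℚ {u : Fin κ → ℚ | ∃ T : Finset ℚ, T.card = d + 1 ∧
      ∀ t ∈ T, p + t • u ∈ P} = ⊤) (F : MvPolynomial (Fin κ) ℚ)
    (hF : ∀ m, d < m.degree → coeff m F = 0) (h0 : ∀ p ∈ P, eval p F = 0) : F = 0 := by
  induction d generalizing F with
  | zero =>
    have h1 : F = C (coeff 0 F) := by
      ext m
      rw [coeff_C]
      split_ifs with hm
      · rw [hm]
      · refine hF m ?_
        rw [Nat.pos_iff_ne_zero]
        intro h2
        exact hm ((Finsupp.degree_eq_zero_iff m).1 h2).symm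
    obtain ⟨p, hp⟩ := hne
    have h2 := h0 p hp
    rw [h1, eval_C] at h2
    rw [h1, h2, C_0]
  | succ d ih =>
    have h1 : ∀ i, pderiv i F = 0 := by
      intro i
      refine ih ?_ (pderiv i F) ?_ ?_
      · intro p hp
        rw [eq_top_iff, ← h p hp]
        apply Submodule.span_mono
        rintro u ⟨T, hT, hu⟩
        obtain ⟨T', hT', hc⟩ := Finset.exists_subset_card_eq (show d + 1 ≤ T.card by omega)
        exact ⟨T', hc, fun t ht => hu t (hT' ht)⟩
      · intro m hm
        rw [coeff_pderiv, hF, zero_mul]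
        rw [map_add, Finsupp.degree_single]
        omega
      · intro p hp
        let L : (Fin κ → ℚ) →ₗ[ℚ] ℚ :=
          { toFun := fun u => ∑ i, u i * eval p (pderiv i F)
            map_add' := fun u v => by
              rw [← Finset.sum_add_distrib]
              exact Finset.sum_congr rfl fun i _ => by rw [Pi.add_apply]; ring
            map_smul' := fun c u => by
              rw [RingHom.id_apply, smul_eq_mul, Finset.mul_sum]
              exact Finset.sum_congr rfl fun i _ => by rw [Pi.smul_apply, smul_eq_mul]; ring }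
        have hL : L = 0 := by
          have h2 : Submodule.span ℚ {u : Fin κ → ℚ | ∃ T : Finset ℚ, T.card = d + 1 + 1 ∧
              ∀ t ∈ T, p + t • u ∈ P} ≤ LinearMap.ker L := by
            rw [Submodule.span_le]
            rintro u ⟨T, hT, hu⟩
            change ∑ i, u i * eval p (pderiv i F) = 0
            rw [← derivative_onLine]
            have h3 : onLine p u F = 0 := by
              refine Polynomial.eq_zero_of_natDegree_lt_card_of_eval_eq_zero' _ T ?_ ?_
              · intro t ht
                rw [eval_onLine]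
                exact h0 _ (hu t ht)
              · rw [hT]
                have h4 : F.totalDegree ≤ d + 1 := by
                  rw [MvPolynomial.totalDegree]
                  refine Finset.sup_le fun m hm => ?_
                  by_contra h5
                  rw [MvPolynomial.mem_support_iff] at hm
                  exact hm (hF m (by
                    rw [Finsupp.degree_apply]
                    exact not_le.1 h5))
                have h5 : (onLine p u F).natDegree ≤ (d + 1) * 1 := by
                  unfold onLine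
                  refine MvPolynomial.aeval_natDegree_le F h4 _ ?_
                  intro i
                  compute_degree
                omega
            rw [h3, Polynomial.derivative_zero, Polynomial.eval_zero]
          rw [h p hp] at h2
          exact LinearMap.ker_eq_top.1 (top_le_iff.1 h2)
        have h3 := LinearMap.congr_fun hL (Pi.single i 1)
        have h4 : L (Pi.single i 1) = eval p (pderiv i F) := by
          change ∑ j, (Pi.single i 1 : Fin κ → ℚ) j * eval p (pderiv j F) = _
          rw [Finset.sum_eq_single i]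
          · rw [Pi.single_eq_same, one_mul]
          · intro j _ hj
            rw [Pi.single_eq_of_ne hj, zero_mul]
          · intro hi
            exact absurd (Finset.mem_univ i) hi
        rw [← h4, h3]
        rfl
    have h2 : F = C (coeff 0 F) := by
      ext m
      rw [coeff_C]
      split_ifs with hm
      · rw [hm]
      · have h3 : ∃ i, m i ≠ 0 := by
          by_contra h4
          push Not at h4
          exact hm (Finsupp.ext fun i => (h4 i).symm)
        obtain ⟨i, hi⟩ := h3
        have h4 := coeff_pderiv (i := i) F (m - Finsupp.single i 1)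
        rw [h1 i, coeff_zero, tsub_add_cancel_of_le] at h4
        · have h5 : (((m - Finsupp.single i 1 : Fin κ →₀ ℕ) i : ℕ) : ℚ) + 1 ≠ 0 := by positivity
          exact (mul_eq_zero.1 h4.symm).resolve_right h5
        · rw [Finsupp.single_le_iff]
          omega
    obtain ⟨p, hp⟩ := hne
    have h3 := h0 p hp
    rw [h2, eval_C] at h3
    rw [h2, h3, C_0]

/-- The exponents of degree at most `d`. -/
def expo (κ d : ℕ) : Finset (Fin κ →₀ ℕ) :=
  (Finset.range (d + 1)).biUnion fun j => Finset.finsuppAntidiag Finset.univ j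

theorem mem_expo {κ d : ℕ} (m : Fin κ →₀ ℕ) : m ∈ expo κ d ↔ m.degree ≤ d := by
  unfold expo
  rw [Finset.mem_biUnion]
  constructor
  · rintro ⟨j, hj, hm⟩
    rw [Finset.mem_finsuppAntidiag] at hm
    rw [Finsupp.degree_eq_sum, hm.1]
    exact Nat.lt_succ_iff.1 (Finset.mem_range.1 hj)
  · intro h
    refine ⟨m.degree, Finset.mem_range.2 (Nat.lt_succ_of_le h), ?_⟩
    rw [Finset.mem_finsuppAntidiag, Finsupp.degree_eq_sum]
    exact ⟨rfl, Finset.subset_univ _⟩

theorem sum_multichoose (κ d : ℕ) :
    ∑ j ∈ Finset.range (d + 1), Nat.multichoose κ j = Nat.multichoose (κ + 1) d := by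
  induction d with
  | zero => simp
  | succ d ih =>
    rw [Finset.sum_range_succ, ih, Nat.multichoose_succ_succ, add_comm]

theorem card_expo (κ d : ℕ) : (expo κ d).card = (κ + d).choose d := by
  unfold expo
  rw [Finset.card_biUnion]
  · have h : ∀ j ∈ Finset.range (d + 1), (Finset.finsuppAntidiag (Finset.univ : Finset (Fin κ)) j).card =
        Nat.multichoose κ j := by
      intro j _
      rw [Finset.card_finsuppAntidiag_nat_eq_multichoose, Finset.card_univ, Fintype.card_fin]
    rw [Finset.sum_congr rfl h, sum_multichoose, Nat.multichoose_eq]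
    congr 1
    omega
  · intro i _ j _ hij
    rw [Function.onFun, Finset.disjoint_left]
    intro m hm hm'
    rw [Finset.mem_finsuppAntidiag] at hm hm'
    exact hij (hm.1.symm.trans hm'.1)

theorem full_rank_fin {κ : ℕ} (d : ℕ) (P : Finset (Fin κ → ℚ)) (hne : P.Nonempty)
    (h : ∀ p ∈ P, Submodule.span ℚ {u : Fin κ → ℚ | ∃ T : Finset ℚ, T.card = d + 1 ∧
      ∀ t ∈ T, p + t • u ∈ P} = ⊤) : (κ + d).choose d ≤ P.card := by
  classical
  let poly : (expo κ d → ℚ) →ₗ[ℚ] MvPolynomial (Fin κ) ℚ :=
    { toFun := fun c => ∑ s, monomial s.1 (c s)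
      map_add' := fun a b => by
        rw [← Finset.sum_add_distrib]
        exact Finset.sum_congr rfl fun s _ => by rw [Pi.add_apply, map_add]
      map_smul' := fun a b => by
        rw [RingHom.id_apply, Finset.smul_sum]
        exact Finset.sum_congr rfl fun s _ => by rw [Pi.smul_apply, map_smul] }
  have hco : ∀ (c : expo κ d → ℚ) (m : Fin κ →₀ ℕ), coeff m (poly c) =
      if hm : m ∈ expo κ d then c ⟨m, hm⟩ else 0 := by
    intro c m
    change coeff m (∑ s, monomial s.1 (c s)) = _
    rw [MvPolynomial.coeff_sum]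
    split_ifs with hm
    · rw [Finset.sum_eq_single ⟨m, hm⟩]
      · rw [coeff_monomial, if_pos rfl]
      · intro s _ hs
        rw [coeff_monomial, if_neg]
        intro h1
        exact hs (Subtype.ext h1)
      · intro h1
        exact absurd (Finset.mem_univ _) h1
    · refine Finset.sum_eq_zero fun s _ => ?_
      rw [coeff_monomial, if_neg]
      intro h1
      exact hm (h1 ▸ s.2)
  let ev : MvPolynomial (Fin κ) ℚ →ₗ[ℚ] (P → ℚ) :=
    { toFun := fun F p => eval p.1 F
      map_add' := fun a b => by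
        funext p
        rw [map_add]
        rfl
      map_smul' := fun a b => by
        funext p
        rw [MvPolynomial.smul_eval]
        rfl }
  have hinj : Function.Injective (ev ∘ₗ poly) := by
    rw [← LinearMap.ker_eq_bot, LinearMap.ker_eq_bot']
    intro c hc
    have h1 : poly c = 0 := by
      refine poly_zero d P hne h (poly c) ?_ ?_
      · intro m hm
        rw [hco, dif_neg]
        rw [mem_expo]
        omega
      · intro p hp
        exact congrFun hc ⟨p, hp⟩
    funext s
    have h2 := hco c s.1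
    rw [h1, coeff_zero, dif_pos s.2] at h2
    exact h2.symm
  have h2 := LinearMap.finrank_le_finrank_of_injective hinj
  rw [Module.finrank_fintype_fun_eq_card, Module.finrank_fintype_fun_eq_card, Fintype.card_coe,
    Fintype.card_coe, card_expo] at h2
  exact h2

theorem full_rank_bound {E : Type} [AddCommGroup E] [Module ℚ E] [FiniteDimensional ℚ E]
    (d : ℕ) (P : Finset E) (hne : P.Nonempty)
    (h : ∀ p ∈ P, Submodule.span ℚ {u : E | ∃ T : Finset ℚ, T.card = d + 1 ∧
      ∀ t ∈ T, p + t • u ∈ P} = ⊤) :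
    (Module.finrank ℚ E + d).choose d ≤ P.card := by
  classical
  let e : E ≃ₗ[ℚ] (Fin (Module.finrank ℚ E) → ℚ) := (Module.finBasis ℚ E).equivFun
  have h1 : (P.image e).card = P.card := Finset.card_image_of_injective P e.injective
  rw [← h1]
  refine full_rank_fin d (P.image e) (hne.image e) ?_
  intro p hp
  obtain ⟨p0, hp0, rfl⟩ := Finset.mem_image.1 hp
  have h2 := congrArg (Submodule.map e.toLinearMap) (h p0 hp0)
  rw [Submodule.map_span, Submodule.map_top, LinearEquiv.range] at h2
  rw [eq_top_iff, ← h2]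
  apply Submodule.span_mono
  rintro _ ⟨u, ⟨T, hT, hu⟩, rfl⟩
  refine ⟨T, hT, fun t ht => ?_⟩
  have h3 : e p0 + t • e.toLinearMap u = e (p0 + t • u) := by
    rw [map_add, map_smul]
    rfl
  rw [h3]
  exact Finset.mem_image_of_mem _ (hu t ht)

theorem exists_dot {k : ℕ} (U : Submodule ℚ (Fin k → ℚ)) (x : Fin k → ℚ) (hx : x ∉ U) :
    ∃ v : Fin k → ℚ, (∀ u ∈ U, u ⬝ᵥ v = 0) ∧ x ⬝ᵥ v ≠ 0 := by
  obtain ⟨f, hf, hU⟩ := Submodule.exists_le_ker_of_notMem hx
  have h1 : ∀ y : Fin k → ℚ, y ⬝ᵥ (fun i => f (Pi.single i 1)) = f y := by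
    intro y
    conv_rhs => rw [← Finset.univ_sum_single y]
    rw [map_sum]
    unfold dotProduct
    refine Finset.sum_congr rfl fun i _ => ?_
    have h2 : (Pi.single i (y i) : Fin k → ℚ) = y i • Pi.single i 1 := by
      rw [← Pi.single_smul, smul_eq_mul, mul_one]
    rw [h2, map_smul, smul_eq_mul]
  refine ⟨fun i => f (Pi.single i 1), fun u hu => ?_, ?_⟩
  · rw [h1]
    exact hU hu
  · rw [h1]
    exact hf

section Config

variable {k : ℕ} (P : Finset (Fin k → ℚ))
    (K : (Fin k → ℚ) → Submodule ℚ (Fin k → ℚ)) (S : (Fin k → ℚ) → Set (Fin k → ℚ))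

/-- A vector in a space of dimension at most one. -/
theorem smul_of_finrank_le {L : Submodule ℚ (Fin k → ℚ)} (h1 : Module.finrank ℚ L ≤ 1)
    {v₀ v : Fin k → ℚ} (h0 : v₀ ∈ L) (hne : v₀ ≠ 0) (hv : v ∈ L) : ∃ c : ℚ, v = c • v₀ := by
  obtain ⟨e, he⟩ := finrank_le_one_iff.1 h1
  obtain ⟨a, ha⟩ := he ⟨v₀, h0⟩
  obtain ⟨b, hb⟩ := he ⟨v, hv⟩
  have ha' : a • e.1 = v₀ := congrArg Subtype.val ha
  have hb' : b • e.1 = v := congrArg Subtype.val hb
  have ha0 : a ≠ 0 := by
    rintro rfl
    rw [zero_smul] at ha'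
    exact hne ha'.symm
  refine ⟨b / a, ?_⟩
  rw [← hb', ← ha', smul_smul, div_mul_cancel₀ _ ha0]

theorem span_top {p : Fin k → ℚ} (hSK : ∀ v, v ∈ K p ↔ ∀ u ∈ S p, u ⬝ᵥ v = 0) (hK : K p = ⊥) :
    Submodule.span ℚ (S p) = ⊤ := by
  rw [eq_top_iff]
  intro x _
  by_contra hx
  obtain ⟨v, hv, hxv⟩ := exists_dot _ x hx
  have h1 : v ∈ K p := (hSK v).2 fun u hu => hv u (Submodule.subset_span hu)
  rw [hK, Submodule.mem_bot] at h1
  rw [h1, dotProduct_zero] at hxv
  exact hxv rfl

theorem hyper (hK1 : ∀ p ∈ P, Module.finrank ℚ (K p) ≤ 1)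
    (hSK : ∀ p ∈ P, ∀ v, v ∈ K p ↔ ∀ u ∈ S p, u ⬝ᵥ v = 0)
    (hrich : ∀ p ∈ P, ∀ u ∈ S p, ∃ T : Finset ℚ, T.card = 4 ∧ ∀ t ∈ T, p + t • u ∈ P)
    (hprop : ∀ p ∈ P, ∀ q ∈ P, ∀ v ∈ K p, (q - p) ⬝ᵥ v = 0 → v ∈ K q)
    {p₀ v₀ : Fin k → ℚ} (hp₀ : p₀ ∈ P) (hv₀ : v₀ ∈ K p₀) (hne : v₀ ≠ 0) :
    (k + 2).choose 3 ≤ (P.filter fun q => (q - p₀) ⬝ᵥ v₀ = 0).card := by
  classical
  let φ : (Fin k → ℚ) →ₗ[ℚ] ℚ :=
    { toFun := fun x => x ⬝ᵥ v₀
      map_add' := fun x y => add_dotProduct x y v₀
      map_smul' := fun c x => by rw [smul_dotProduct, RingHom.id_apply] }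
  have hφ : φ ≠ 0 := by
    intro h
    apply hne
    have h1 : v₀ ⬝ᵥ v₀ = 0 := LinearMap.congr_fun h v₀
    exact dotProduct_self_eq_zero.1 h1
  let W : Submodule ℚ (Fin k → ℚ) := LinearMap.ker φ
  have hW : ∀ x, x ∈ W ↔ x ⬝ᵥ v₀ = 0 := fun x => LinearMap.mem_ker
  have hfr : Module.finrank ℚ W + 1 = k := by
    have := Module.Dual.finrank_ker_add_one_of_ne_zero (f := φ) hφ
    rw [Module.finrank_fintype_fun_eq_card, Fintype.card_fin] at this
    exact this
  let f : W → (Fin k → ℚ) := fun w => p₀ + w.1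
  have hf : Function.Injective f := fun a b h => Subtype.ext (add_left_cancel h)
  let P' : Finset W := P.preimage f hf.injOn
  have hP' : ∀ w : W, w ∈ P' ↔ p₀ + w.1 ∈ P := fun w => Finset.mem_preimage
  have hb := full_rank_bound (E := W) 3 P' ⟨0, (hP' 0).2 (by
    rw [Submodule.coe_zero, add_zero]
    exact hp₀)⟩ ?_
  · have h1 : P'.card ≤ (P.filter fun q => (q - p₀) ⬝ᵥ v₀ = 0).card := by
      refine Finset.card_le_card_of_injOn f ?_ hf.injOn
      intro w hw
      rw [Finset.mem_coe, Finset.mem_filter]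
      refine ⟨(hP' w).1 hw, ?_⟩
      change (p₀ + w.1 - p₀) ⬝ᵥ v₀ = 0
      rw [add_sub_cancel_left]
      exact (hW _).1 w.2
    refine le_trans ?_ (hb.trans h1)
    rw [show k + 2 = Module.finrank ℚ W + 3 by omega]
  · intro w hw
    rw [hP'] at hw
    set q := p₀ + w.1 with hq
    have hvq : v₀ ∈ K q := hprop p₀ hp₀ q hw v₀ hv₀ (by
      rw [hq, add_sub_cancel_left]
      exact (hW _).1 w.2)
    have hspan : ∀ x ∈ W, x ∈ Submodule.span ℚ (S q) := by
      intro x hx
      by_contra hxs
      obtain ⟨v, hv, hxv⟩ := exists_dot _ x hxs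
      have h1 : v ∈ K q := (hSK q hw v).2 fun u hu => hv u (Submodule.subset_span hu)
      obtain ⟨c, rfl⟩ := smul_of_finrank_le (hK1 q hw) hvq hne h1
      apply hxv
      rw [dotProduct_smul, (hW x).1 hx, smul_zero]
    have hSW : ∀ u ∈ S q, u ∈ W := fun u hu => (hW u).2 ((hSK q hw v₀).1 hvq u hu)
    rw [eq_top_iff]
    intro x _
    have h2 := hspan x.1 x.2
    have h3 : ∀ y : Fin k → ℚ, y ∈ Submodule.span ℚ (S q) → ∃ z : W, z.1 = y ∧
        z ∈ Submodule.span ℚ {u : W | ∃ T : Finset ℚ, T.card = 3 + 1 ∧ ∀ t ∈ T, w + t • u ∈ P'} := by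
      intro y hy
      induction hy using Submodule.span_induction with
      | mem u hu =>
        refine ⟨⟨u, hSW u hu⟩, rfl, Submodule.subset_span ?_⟩
        obtain ⟨T, hT, ht⟩ := hrich q hw u hu
        refine ⟨T, hT, fun t h => ?_⟩
        rw [hP']
        have h4 := ht t h
        rw [hq, add_assoc] at h4
        exact h4
      | zero => exact ⟨0, rfl, Submodule.zero_mem _⟩
      | add a b _ _ iha ihb =>
        obtain ⟨z, hz, hz'⟩ := iha
        obtain ⟨z2, hz2, hz2'⟩ := ihb
        exact ⟨z + z2, by rw [Submodule.coe_add, hz, hz2], Submodule.add_mem _ hz' hz2'⟩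
      | smul c a _ ih =>
        obtain ⟨z, hz, hz'⟩ := ih
        exact ⟨c • z, by rw [Submodule.coe_smul, hz], Submodule.smul_mem _ c hz'⟩
    obtain ⟨z, hz, hz'⟩ := h3 x.1 h2
    rw [← Subtype.ext hz]
    exact hz'

end Config

theorem config_bound {k : ℕ} (hk : 2 ≤ k) (P : Finset (Fin k → ℚ)) (hne : P.Nonempty)
    (K : (Fin k → ℚ) → Submodule ℚ (Fin k → ℚ)) (S : (Fin k → ℚ) → Set (Fin k → ℚ))
    (hK1 : ∀ p ∈ P, Module.finrank ℚ (K p) ≤ 1)
    (hSK : ∀ p ∈ P, ∀ v, v ∈ K p ↔ ∀ u ∈ S p, u ⬝ᵥ v = 0)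
    (hrich : ∀ p ∈ P, ∀ u ∈ S p, ∃ T : Finset ℚ, T.card = 4 ∧ ∀ t ∈ T, p + t • u ∈ P)
    (hprop : ∀ p ∈ P, ∀ q ∈ P, ∀ v ∈ K p, (q - p) ⬝ᵥ v = 0 → v ∈ K q)
    (hspan : ∀ v : Fin k → ℚ, (∀ p ∈ P, ∀ q ∈ P, (q - p) ⬝ᵥ v = 0) → v = 0) :
    (k + 3).choose 3 ≤ P.card ∨ 2 * (k + 2).choose 3 ≤ P.card := by
  classical
  by_cases hA : ∀ p ∈ P, K p = ⊥
  · left
    have h1 := full_rank_bound 3 P hne fun p hp => by
      rw [eq_top_iff, ← span_top K S (hSK p hp) (hA p hp)]
      apply Submodule.span_mono
      intro u hu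
      exact hrich p hp u hu
    rw [Module.finrank_fintype_fun_eq_card, Fintype.card_fin] at h1
    exact h1
  · push Not at hA
    obtain ⟨p₀, hp₀, hK0⟩ := hA
    obtain ⟨v₀, hv₀, hv0⟩ := (Submodule.ne_bot_iff _).1 hK0
    have hH := hyper P K S hK1 hSK hrich hprop hp₀ hv₀ hv0
    set H := P.filter fun q => (q - p₀) ⬝ᵥ v₀ = 0 with hHdef
    set Q := P.filter fun q => ¬ (q - p₀) ⬝ᵥ v₀ = 0 with hQdef
    have hcard : H.card + Q.card = P.card := Finset.card_filter_add_card_filter_not _
    have hQne : Q.Nonempty := by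
      rw [Finset.nonempty_iff_ne_empty]
      intro h
      apply hv0
      apply hspan
      have h1 : ∀ q ∈ P, (q - p₀) ⬝ᵥ v₀ = 0 := by
        intro q hq
        by_contra h2
        have h3 : q ∈ Q := Finset.mem_filter.2 ⟨hq, h2⟩
        rw [h] at h3
        exact absurd h3 (Finset.notMem_empty q)
      intro p hp q hq
      have h2 := h1 p hp
      have h3 := h1 q hq
      have h4 : q - p = (q - p₀) - (p - p₀) := by abel
      rw [h4, sub_dotProduct, h2, h3, sub_zero]
    by_cases hB : ∀ q ∈ Q, K q = ⊥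
    · left
      have h1 := full_rank_bound 2 Q hQne fun q hq => by
        have hqP : q ∈ P := (Finset.mem_filter.1 hq).1
        have hqH : ¬ (q - p₀) ⬝ᵥ v₀ = 0 := (Finset.mem_filter.1 hq).2
        rw [eq_top_iff, ← span_top K S (hSK q hqP) (hB q hq)]
        apply Submodule.span_mono
        intro u hu
        obtain ⟨T, hT, ht⟩ := hrich q hqP u hu
        let T' := T.filter fun t => ¬ (q + t • u - p₀) ⬝ᵥ v₀ = 0
        have h2 : (T.filter fun t => (q + t • u - p₀) ⬝ᵥ v₀ = 0).card ≤ 1 := by
          rw [Finset.card_le_one]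
          intro a ha b hb
          rw [Finset.mem_filter] at ha hb
          have hexp : ∀ t : ℚ, (q + t • u - p₀) ⬝ᵥ v₀ = (q - p₀) ⬝ᵥ v₀ + t * (u ⬝ᵥ v₀) := by
            intro t
            rw [show q + t • u - p₀ = (q - p₀) + t • u by abel, add_dotProduct, smul_dotProduct,
              smul_eq_mul]
          have ha2 := ha.2
          have hb2 := hb.2
          rw [hexp] at ha2 hb2
          have h3 : u ⬝ᵥ v₀ ≠ 0 := by
            intro h4
            rw [h4, mul_zero, add_zero] at ha2
            exact hqH ha2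
          have h4 : (a - b) * (u ⬝ᵥ v₀) = 0 := by linarith
          exact sub_eq_zero.1 ((mul_eq_zero.1 h4).resolve_right h3)
        have h3 : (T.filter fun t => (q + t • u - p₀) ⬝ᵥ v₀ = 0).card + T'.card = T.card :=
          Finset.card_filter_add_card_filter_not _
        obtain ⟨T'', hT'', hc⟩ := Finset.exists_subset_card_eq (show 2 + 1 ≤ T'.card by omega)
        refine ⟨T'', hc, fun t h => ?_⟩
        have h4 := Finset.mem_filter.1 (hT'' h)
        exact Finset.mem_filter.2 ⟨ht t h4.1, h4.2⟩
      rw [Module.finrank_fintype_fun_eq_card, Fintype.card_fin] at h1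
      have h2 : (k + 3).choose 3 = (k + 2).choose 2 + (k + 2).choose 3 :=
        Nat.choose_succ_succ (k + 2) 2
      omega
    · right
      push Not at hB
      obtain ⟨q₁, hq₁, hK1'⟩ := hB
      obtain ⟨hq₁P, hq₁H⟩ := Finset.mem_filter.1 hq₁
      obtain ⟨v₁, hv₁, hv1⟩ := (Submodule.ne_bot_iff _).1 hK1'
      have hH1 := hyper P K S hK1 hSK hrich hprop hq₁P hv₁ hv1
      set H1 := P.filter fun q => (q - q₁) ⬝ᵥ v₁ = 0 with hH1def
      have hdis : Disjoint H H1 := by
        rw [Finset.disjoint_left]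
        intro q hq hq'
        obtain ⟨hqP, hq2⟩ := Finset.mem_filter.1 hq
        obtain ⟨-, hq3⟩ := Finset.mem_filter.1 hq'
        have h1 : v₀ ∈ K q := hprop p₀ hp₀ q hqP v₀ hv₀ hq2
        have h2 : v₁ ∈ K q := hprop q₁ hq₁P q hqP v₁ hv₁ hq3
        obtain ⟨c, hc⟩ := smul_of_finrank_le (hK1 q hqP) h1 hv0 h2
        have hc0 : c ≠ 0 := by
          rintro rfl
          rw [zero_smul] at hc
          exact hv1 hc
        rw [hc, dotProduct_smul, smul_eq_mul] at hq3
        have h3 := (mul_eq_zero.1 hq3).resolve_left hc0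
        apply hq₁H
        rw [show q₁ - p₀ = (q - p₀) - (q - q₁) by abel, sub_dotProduct, hq2, h3, sub_zero]
      have h1 : (H ∪ H1).card ≤ P.card := by
        apply Finset.card_le_card
        exact Finset.union_subset (Finset.filter_subset _ _) (Finset.filter_subset _ _)
      rw [Finset.card_union_of_disjoint hdis] at h1
      omega

end Pool.Agent.Helper57.Petrie
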