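import Pool.Agent.Helper34.Petrie.Dirac

/-!
# Linear actions on the complex projective space

The data of a linear action of the torus `T^k` on `CP^n` satisfy all the conditions of
`TorusAction`.
-/

set_option autoImplicit false
set_option linter.unusedSectionVars false

namespace Pool.Agent.Helper57.Petrie

open Finset Pool.Agent.Helper49.Petrie

/-- Factorisation of a complex polynomial with constant term `1`. -/
theorem exists_factor (m : ℕ) (Q : Polynomial ℂ) (h0 : Q.coeff 0 = 1) (hd : Q.natDegree ≤ m) :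
    ∃ r : Fin m → ℂ, Q = ∏ j, (1 + Polynomial.C (r j) * Polynomial.X) := by
  induction m generalizing Q with
  | zero =>
    refine ⟨fun _ => 0, ?_⟩
    have h1 : Q = Polynomial.C (Q.coeff 0) := Polynomial.eq_C_of_natDegree_le_zero hd
    rw [h1, h0]
    simp
  | succ m ih =>
    by_cases hQ : Q.natDegree = 0
    · obtain ⟨r, hr⟩ := ih Q h0 (by omega)
      refine ⟨Fin.cons 0 r, ?_⟩
      rw [Fin.prod_univ_succ]
      simp only [Fin.cons_zero, Fin.cons_succ, map_zero, zero_mul, add_zero, one_mul]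
      exact hr
    · have hdeg : Q.degree ≠ 0 := by
        intro h
        exact hQ (Polynomial.natDegree_eq_of_degree_eq_some h)
      obtain ⟨α, hα⟩ := IsAlgClosed.exists_root Q hdeg
      obtain ⟨R, hR⟩ := Polynomial.dvd_iff_isRoot.2 hα
      have hα0 : α ≠ 0 := by
        rintro rfl
        have h2 : Q.eval 0 = 0 := hα
        rw [← Polynomial.coeff_zero_eq_eval_zero, h0] at h2
        exact one_ne_zero h2
      have hR0 : R ≠ 0 := by
        rintro rfl
        rw [mul_zero] at hR
        rw [hR, Polynomial.coeff_zero] at h0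
        exact zero_ne_one h0
      have hQR : Q = (1 + Polynomial.C (-α⁻¹) * Polynomial.X) * (Polynomial.C (-α) * R) := by
        rw [hR]
        have h2 : Polynomial.C α * Polynomial.C α⁻¹ = 1 := by
          rw [← Polynomial.C_mul, mul_inv_cancel₀ hα0, Polynomial.C_1]
        rw [Polynomial.C_neg, Polynomial.C_neg]
        linear_combination (-(Polynomial.X * R)) * h2
      have h3 : (Polynomial.C (-α) * R).coeff 0 = 1 := by
        have h4 := congrArg (fun P => Polynomial.coeff P 0) hQR
        simp only [Polynomial.mul_coeff_zero, Polynomial.coeff_add, Polynomial.coeff_one_zero,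
          Polynomial.coeff_X_zero, mul_zero, add_zero, one_mul] at h4
        rw [Polynomial.mul_coeff_zero, ← h4]
        exact h0
      have h4 : (Polynomial.C (-α) * R).natDegree ≤ m := by
        rw [Polynomial.natDegree_C_mul (neg_ne_zero.2 hα0)]
        have h5 := congrArg Polynomial.natDegree hR
        rw [Polynomial.natDegree_mul (Polynomial.X_sub_C_ne_zero α) hR0,
          Polynomial.natDegree_X_sub_C] at h5
        omega
      obtain ⟨r, hr⟩ := ih _ h3 h4
      refine ⟨Fin.cons (-α⁻¹) r, ?_⟩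
      rw [Fin.prod_univ_succ]
      simp only [Fin.cons_zero, Fin.cons_succ]
      rw [← hr]
      exact hQR

/-- The standard roots. -/
theorem exists_roots (n : ℕ) : ∃ r : Fin (n / 2) → ℂ, ∀ s, 2 * s ≤ n →
    (∏ j, (1 + Polynomial.C (r j) * Polynomial.X)).coeff s = ((n + 1).choose s : ℂ) := by
  set Q : Polynomial ℂ := ∑ s ∈ range (n / 2 + 1),
    Polynomial.C ((n + 1).choose s : ℂ) * Polynomial.X ^ s with hQ
  have hc : ∀ s, 2 * s ≤ n → Q.coeff s = ((n + 1).choose s : ℂ) := by
    intro s hs
    rw [hQ, Polynomial.finsetSum_coeff]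
    simp only [Polynomial.coeff_C_mul_X_pow]
    rw [Finset.sum_ite_eq, if_pos (Finset.mem_range.2 (by omega))]
  have hd : Q.natDegree ≤ n / 2 := by
    rw [hQ]
    refine Polynomial.natDegree_sum_le_of_forall_le _ _ fun s hs => ?_
    exact (Polynomial.natDegree_C_mul_X_pow_le _ _).trans
      (Nat.lt_succ_iff.1 (Finset.mem_range.1 hs))
  obtain ⟨r, hr⟩ := exists_factor (n / 2) Q (by rw [hc 0 (Nat.zero_le n)]; simp) hd
  exact ⟨r, fun s hs => by rw [← hr, hc s hs]⟩

open Pool.Agent.Helper34.Petrie PowerSeries in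
/-- The Dirac indices of the standard roots vanish. -/
theorem dirac_zero (n : ℕ) (r : Fin (n / 2) → ℂ)
    (hr : ∀ s, 2 * s ≤ n →
      (∏ j, (1 + Polynomial.C (r j) * Polynomial.X)).coeff s = ((n + 1).choose s : ℂ))
    (c : ℤ) (hc : Even (c + (n + 1))) (hc' : |c| < n + 1) : diracIndex n r c = 0 := by
  have hg : eu (1 + X : ℂ⟦X⟧) = (1 + X) * (X * (1 + X)⁻¹) := by
    have hc : constantCoeff (1 + X : ℂ⟦X⟧) ≠ 0 := by simp
    rw [mul_left_comm, PowerSeries.mul_inv_cancel _ hc, mul_one, eu_add, eu_one, eu_X, zero_add]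
  have h0 : coeff 0 (1 + X : ℂ⟦X⟧) = 1 := by simp
  have e1 : (((∏ j, (1 + Polynomial.C (r j) * Polynomial.X) : Polynomial ℂ)) : ℂ⟦X⟧) =
      Pr (1 + X) r := by
    rw [← Polynomial.coeToPowerSeries.ringHom_apply, map_prod, Pr]
    apply Finset.prod_congr rfl
    intro j _
    simp [rescale_X]
  have e2 : (((1 + Polynomial.X : Polynomial ℂ) ^ (n + 1) : Polynomial ℂ) : ℂ⟦X⟧) =
      (1 + X) ^ (n + 1) := by simp
  have h1 : ∀ s ≤ n / 2, coeff s (Pr (1 + X) r) =
      coeff s (Pr (1 + X) (fun _ : Fin (n + 1) => (1 : ℂ))) := by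
    intro s hs
    rw [Pr_one, ← e1, ← e2, Polynomial.coeff_coe, Polynomial.coeff_coe, hr s (by omega),
      Polynomial.coeff_one_add_X_pow]
  have h2 := log_of_eq (Pr_eu hg r) (Pr_eu hg (fun _ : Fin (n + 1) => (1 : ℂ)))
      (Pr_zero h0 r) (Pr_zero h0 _) (n / 2) h1
  have hne : ∀ s, 0 < s → coeff s (X * (1 + X)⁻¹ : ℂ⟦X⟧) ≠ 0 := by
    intro s hs
    have h3 : ∀ s : ℕ, coeff s ((1 + X)⁻¹ : ℂ⟦X⟧) = (-1) ^ s := by
      have h4 : ((1 + X)⁻¹ : ℂ⟦X⟧) = mk fun s => (-1 : ℂ) ^ s := by
        rw [PowerSeries.inv_eq_iff_mul_eq_one (by simp)]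
        ext s
        rw [mul_add, mul_one, map_add, coeff_mk]
        rcases Nat.eq_zero_or_pos s with rfl | hs
        · simp
        · obtain ⟨t, rfl⟩ := Nat.exists_eq_succ_of_ne_zero hs.ne'
          rw [Nat.succ_eq_add_one, coeff_succ_mul_X, coeff_mk, coeff_one, if_neg (by omega)]
          ring
      intro s
      rw [h4, coeff_mk]
    obtain ⟨t, rfl⟩ := Nat.exists_eq_succ_of_ne_zero hs.ne'
    rw [Nat.succ_eq_add_one, coeff_succ_X_mul, h3]
    exact pow_ne_zero _ (by norm_num)
  have h3 : ∀ s ≤ n / 2, 0 < s → ∑ j, r j ^ s = n + 1 := by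
    intro s hs hpos
    have := h2 s hs
    rw [coeff_sum_rescale, coeff_sum_rescale] at this
    have := mul_right_cancel₀ (hne s hpos) this
    rw [this]
    simp
  have h4 : ∀ s ≤ n / 2, coeff s (Pr ahatSeries r) =
      coeff s (Pr ahatSeries (fun _ : Fin (n + 1) => (1 : ℂ))) := by
    apply eq_of_log (Pr_eu eu_ahat' r) (Pr_eu eu_ahat' (fun _ : Fin (n + 1) => (1 : ℂ)))
      (Pr_zero ahat_zero r) (Pr_zero ahat_zero _)
    intro s hs
    rw [coeff_sum_rescale, coeff_sum_rescale]
    rcases Nat.eq_zero_or_pos s with rfl | hpos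
    · rw [map_neg, th_zero, neg_zero, mul_zero, mul_zero]
    · rw [h3 s hs hpos]
      simp
  have h5 : diracIndex n r c = Fst n ((c : ℂ) / 2) := by
    unfold diracIndex Fst
    refine Finset.sum_congr rfl fun s hs => ?_
    have h6 := h4 s (Nat.lt_succ_iff.1 (Finset.mem_range.1 hs))
    rw [Pr_one] at h6
    have h7 : ahatClass r = Pr ahatSeries r := rfl
    rw [h7, h6]
  rw [h5]
  exact Fst_zero n c hc hc'

/-- Sums over the other points. -/
theorem card_succAbove {n : ℕ} (i : Fin (n + 1)) (P : Fin (n + 1) → Prop) [DecidablePred P] :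
    #{j : Fin n | P (i.succAbove j)} = #{l | l ≠ i ∧ P l} := by
  refine Finset.card_bij (fun j _ => i.succAbove j) ?_ ?_ ?_
  · intro j hj
    rw [Finset.mem_filter] at hj ⊢
    exact ⟨Finset.mem_univ _, Fin.succAbove_ne i j, hj.2⟩
  · intro a _ b _ h
    exact Fin.succAbove_right_injective h
  · intro l hl
    rw [Finset.mem_filter] at hl
    obtain ⟨j, rfl⟩ := Fin.exists_succAbove_eq hl.2.1
    exact ⟨j, Finset.mem_filter.2 ⟨Finset.mem_univ _, hl.2.2⟩, rfl⟩

theorem linear_circle {n : ℕ} (r : Fin (n / 2) → ℂ)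
    (hr : ∀ s, 2 * s ≤ n →
      (∏ j, (1 + Polynomial.C (r j) * Polynomial.X)).coeff s = ((n + 1).choose s : ℂ))
    (x : Fin (n + 1) → ℤ) :
    IsCircleData n r x fun i j => x (i.succAbove j) - x i where
  smith i m _ := card_succAbove i fun l => (m : ℤ) ∣ x l - x i
  index_le i m := (card_succAbove i fun l => (m : ℤ) ∣ x l - x i).le
  index_eq _ l m _ _ := card_succAbove l fun l' => (m : ℤ) ∣ x l' - x l
  conn i l h d := by
    rw [card_succAbove i fun m => (x m - x i).natAbs = d,
      card_succAbove l fun m => (x m - x l).natAbs = d, h]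
    have h1 : ∀ i' : Fin (n + 1), x i' = x l →
        #{m | m ≠ i' ∧ (x m - x l).natAbs = d} + (if d = 0 then 1 else 0) =
          #{m | (x m - x l).natAbs = d} := by
      intro i' hi'
      by_cases hd : d = 0
      · rw [if_pos hd]
        have h2 : (univ.filter fun m => m ≠ i' ∧ (x m - x l).natAbs = d) =
            (univ.filter fun m => (x m - x l).natAbs = d).erase i' := by
          ext m
          simp
        rw [h2, Finset.card_erase_add_one]
        rw [Finset.mem_filter, hi', sub_self, hd]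
        exact ⟨Finset.mem_univ _, rfl⟩
      · rw [if_neg hd, add_zero]
        congr 1
        ext m
        simp only [Finset.mem_filter, Finset.mem_univ, true_and]
        constructor
        · exact fun h => h.2
        · intro h
          refine ⟨?_, h⟩
          rintro rfl
          rw [hi', sub_self] at h
          exact hd h.symm
    have h2 := h1 i h
    have h3 := h1 l rfl
    omega
  dirac c hc h := by
    refine dirac_zero n r hr c hc ?_
    obtain ⟨i, -, hi⟩ := Finset.exists_min_image Finset.univ x Finset.univ_nonempty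
    obtain ⟨l, -, hl⟩ := Finset.exists_max_image Finset.univ x Finset.univ_nonempty
    have h1 := h i l
    have hsum : ∀ i', ∑ j : Fin n, |x (i'.succAbove j) - x i'| = ∑ m, |x m - x i'| := by
      intro i'
      rw [Fin.sum_univ_succAbove _ i', sub_self, abs_zero, zero_add]
    rw [hsum, hsum, ← Finset.sum_add_distrib] at h1
    have h2 : ∀ m ∈ (Finset.univ : Finset (Fin (n + 1))), |x m - x i| + |x m - x l| = x l - x i := by
      intro m _
      have h3 := hi m (Finset.mem_univ m)
      have h4 := hl m (Finset.mem_univ m)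
      rw [abs_of_nonneg (by linarith), abs_of_nonpos (by linarith)]
      ring
    have h3 := hi l (Finset.mem_univ l)
    rw [Finset.sum_congr rfl h2, Finset.sum_const, Finset.card_univ, Fintype.card_fin,
      abs_sub_comm (x i) (x l), abs_of_nonneg (show (0 : ℤ) ≤ x l - x i by linarith),
      nsmul_eq_mul] at h1
    have h4 : 0 < x l - x i := by
      rcases (sub_nonneg.2 h3).eq_or_lt with h5 | h5
      · rw [← h5] at h1
        simp at h1
      · exact h5
    have h5 := lt_of_mul_lt_mul_right h1 h4.le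
    push_cast at h5
    exact h5

/-- Linear actions on the projective space. -/
theorem linear {k n : ℕ} (a : Fin (n + 1) → Fin k → ℤ)
    (heff : ∀ v : Fin k → ℤ, (∀ i l, a i ⬝ᵥ v = a l ⬝ᵥ v) → v = 0) :
    ∃ X : TorusAction k n, X.a = a ∧ (∀ i j, X.w i j = a (i.succAbove j) - a i) ∧
      ∀ s, X.p s = (n + 1).choose s := by
  obtain ⟨r, hr⟩ := exists_roots n
  refine ⟨{ p := fun s => (n + 1).choose s
            r := r
            p_eq := fun s hs => by rw [hr s hs]; simp
            a := a
            w := fun i j => a (i.succAbove j) - a i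
            circle := fun v => by
              simp only [sub_dotProduct]
              exact linear_circle r hr fun i => a i ⬝ᵥ v
            β := -2 • ∑ l, a l
            γ := Matrix.of fun s t => ∑ l, a l s * a l t
            pont := ?_
            eff := heff }, rfl, fun _ _ => rfl, fun _ => rfl⟩
  intro i v
  have h1 : v ⬝ᵥ (Matrix.of fun s t => ∑ l, a l s * a l t).mulVec v = ∑ l, (a l ⬝ᵥ v) ^ 2 := by
    have h2 : ∀ l, (a l ⬝ᵥ v) ^ 2 = ∑ s, ∑ t, v s * (a l s * a l t * v t) := by
      intro l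
      unfold dotProduct
      rw [sq, Finset.sum_mul_sum]
      exact Finset.sum_congr rfl fun s _ => Finset.sum_congr rfl fun t _ => by ring
    rw [Finset.sum_congr rfl fun l _ => h2 l, Finset.sum_comm]
    unfold Matrix.mulVec dotProduct
    refine Finset.sum_congr rfl fun s _ => ?_
    rw [Finset.sum_comm, Finset.mul_sum]
    refine Finset.sum_congr rfl fun t _ => ?_
    change v s * ((∑ l, a l s * a l t) * v t) = _
    rw [Finset.sum_mul, Finset.mul_sum]
  have h3 : (-2 • ∑ l, a l) ⬝ᵥ v = -2 * ∑ l, a l ⬝ᵥ v := by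
    rw [smul_dotProduct, sum_dotProduct, smul_eq_mul]
  rw [h1, h3]
  have h4 : ∑ j : Fin n, ((a (i.succAbove j) - a i) ⬝ᵥ v) ^ 2 =
      ∑ l, (a l ⬝ᵥ v - a i ⬝ᵥ v) ^ 2 := by
    rw [Fin.sum_univ_succAbove _ i, sub_self, zero_pow two_ne_zero, zero_add]
    exact Finset.sum_congr rfl fun j _ => by rw [sub_dotProduct]
  rw [h4]
  have h5 : ∀ l, (a l ⬝ᵥ v - a i ⬝ᵥ v) ^ 2 =
      (a l ⬝ᵥ v) ^ 2 - 2 * (a i ⬝ᵥ v) * (a l ⬝ᵥ v) + (a i ⬝ᵥ v) ^ 2 := fun l => by ring
  rw [Finset.sum_congr rfl fun l _ => h5 l, Finset.sum_add_distrib, Finset.sum_sub_distrib,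
    ← Finset.mul_sum, Finset.sum_const, Finset.card_univ, Fintype.card_fin, nsmul_eq_mul,
    Nat.choose_one_right]
  push_cast
  ring

end Pool.Agent.Helper57.Petrie
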